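import Mathlib
import Pool.Agent.N285.GP.Poly
import Pool.Agent.N740.HK.Sch

/-!
# The Firoozbakht inequality for prime values of a polynomial in the sieved sequential random models

The integers are decided one after the other; the multiples of the primes of a finite set `Q` are never
chosen and the conditional probability of choosing an integer `n + 1` which is not such a multiple,
given the decisions up to `n`, is asymptotic to `∏_{p ∈ Q} (1 - 1 / p)⁻¹ / log n`, almost surely.  No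
independence and no rate of convergence are assumed.

Almost surely, for every integer polynomial `f` of positive degree, with positive leading coefficient and without
a fixed divisor in `Q`, the `q ≥ 1` with `f(q)` chosen are infinitely many, `q_1 < q_2 < ...`, and for every `ε`:
`q_(n+1) < q_n ^ (1 + (1 + ε) / n)` for all large `n`, `q_(n+1) > q_n ^ (1 + (1 - ε) / n)` for infinitely many `n`.
-/

set_option autoImplicit false

open MeasureTheory Filter Set ProbabilityTheory Polynomial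
open scoped Topology

namespace Pool.Agent.Results.MP_6e51af_nt.FiroozbakhtInModels

variable {Ω : Type}

/-- `A n` is the event that `n` is chosen; adapted to `ℱ`; multiples of the primes in `Q` are not
chosen; the conditional probability of `A (n + 1)` given `ℱ n`, times `log n`, tends almost surely to
`∏_{p ∈ Q} (1 - 1 / p)⁻¹` along the `n` such that no `p ∈ Q` divides `n + 1` -/
def SievedModel [m : MeasurableSpace Ω] (μ : Measure Ω) (ℱ : Filtration ℕ m) (A : ℕ → Set Ω)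
    (Q : Finset ℕ) : Prop :=
  (∀ n, MeasurableSet[ℱ n] (A n)) ∧ (∀ n, (∃ p ∈ Q, p ∣ n) → A n = ∅) ∧
  ∀ᵐ ω ∂μ, Tendsto (fun n : ℕ => (μ[(A (n + 1)).indicator (fun _ => (1 : ℝ)) | ℱ n]) ω * Real.log n)
    (atTop ⊓ 𝓟 {n : ℕ | ∀ p ∈ Q, ¬ p ∣ n + 1}) (𝓝 (∏ p ∈ Q, (1 - 1 / (p : ℝ))⁻¹))

/-- The independent sieved model: independent events, no multiple of a `p ∈ Q` is chosen, all other large `n` are
chosen with probability `∏_{p ∈ Q} (1 - 1 / p)⁻¹ / log n`. -/
def IndependentModel [MeasurableSpace Ω] (μ : Measure Ω) (A : ℕ → Set Ω) (Q : Finset ℕ) : Prop :=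
  (∀ n, MeasurableSet (A n)) ∧ iIndepSet A μ ∧ (∀ n, (∃ p ∈ Q, p ∣ n) → A n = ∅) ∧
  ∀ᶠ n : ℕ in atTop, (∀ p ∈ Q, ¬ p ∣ n) → μ (A n) = ENNReal.ofReal ((∏ p ∈ Q, (1 - 1 / (p : ℝ))⁻¹) / Real.log n)

open Classical in
/-- The random sieve of Hawkins: `2` is chosen, and given the decisions up to `n ≥ 2` the number
`n + 1` is chosen with probability `∏ (1 - 1 / h)`, the product over the chosen `2 ≤ h ≤ n`. -/
def HawkinsSieve [m : MeasurableSpace Ω] (μ : Measure Ω) (ℱ : Filtration ℕ m) (A : ℕ → Set Ω) : Prop :=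
  (∀ n, MeasurableSet[ℱ n] (A n)) ∧ A 2 = univ ∧
  ∀ n, 2 ≤ n → μ[(A (n + 1)).indicator (fun _ => (1 : ℝ)) | ℱ n] =ᵐ[μ]
    fun ω => ∏ h ∈ Finset.Icc 2 n, if ω ∈ A h then 1 - 1 / (h : ℝ) else 1

/-- `ω(p)`: the number of `0 ≤ r < p` with `p ∣ f(r)` -/
noncomputable def omega (f : ℤ[X]) (p : ℕ) : ℕ := {r : ℕ | r < p ∧ (p : ℤ) ∣ f.eval (r : ℤ)}.ncard

/-- the constant of Bateman and Horn restricted to the primes of `Q` -/
noncomputable def const (Q : Finset ℕ) (f : ℤ[X]) : ℝ := ∏ p ∈ Q, (1 - (omega f p : ℝ) / p) / (1 - 1 / (p : ℝ))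

/-- the set of the `k ≥ 1` with `f(k)` in `S` -/
def args (S : Set ℕ) (f : ℤ[X]) : Set ℕ := {k | 1 ≤ k ∧ ∃ q ∈ S, (q : ℤ) = f.eval (k : ℤ)}

/-- `q_n`, for `n ≥ 1`: the `n`-th element of the set `K` of natural numbers -/
noncomputable def q (K : Set ℕ) (n : ℕ) : ℕ := Nat.nth (· ∈ K) (n - 1)

open Pool.Agent.N740.HK Pool.Agent.R528.RM Pool.Agent.N285.GP

lemma prod_inv (A : ℕ → Set Ω) (n : ℕ) (ω : Ω) [DecidablePred fun h => ω ∈ A h] :
    (∏ h ∈ Finset.Icc 2 n, if ω ∈ A h then 1 - 1 / (h : ℝ) else 1) = (Y A n ω)⁻¹ := by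
  unfold Y
  rw [← Finset.prod_inv_distrib]
  refine Finset.prod_congr rfl fun h hh => ?_
  have h2 : (2 : ℝ) ≤ h := by exact_mod_cast (Finset.mem_Icc.1 hh).1
  by_cases hA : ω ∈ A h
  · rw [if_pos hA, if_pos hA, inv_div]
    field_simp
  · rw [if_neg hA, if_neg hA, inv_one]

lemma tendsto_log_atTop : Tendsto (fun n : ℕ => Real.log n) atTop atTop :=
  Real.tendsto_log_atTop.comp tendsto_natCast_atTop_atTop

lemma prod_pos' (Q : Finset ℕ) (hQ : ∀ p ∈ Q, p.Prime) : 0 < ∏ p ∈ Q, (1 - 1 / (p : ℝ))⁻¹ := by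
  refine Finset.prod_pos fun p hp => ?_
  have h1 : (1 : ℝ) < p := by exact_mod_cast (hQ p hp).one_lt
  rw [inv_pos, sub_pos, div_lt_one (by linarith)]
  exact h1

lemma indep_sieved [m : MeasurableSpace Ω] (μ : Measure Ω) [IsProbabilityMeasure μ] (A : ℕ → Set Ω)
    (Q : Finset ℕ) (hQ : ∀ p ∈ Q, p.Prime) (h : IndependentModel μ A Q) :
    ∃ ℱ : Filtration ℕ m, SievedModel μ ℱ A Q := by
  obtain ⟨hA, hi, hz, hp⟩ := h
  refine ⟨gen hA, gen_meas hA, hz, ?_⟩
  have h1 : ∀ᵐ ω ∂μ, ∀ n, (μ[(A (n + 1)).indicator (fun _ => (1 : ℝ)) | gen hA n]) ω =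
      (μ (A (n + 1))).toReal := ae_all_iff.2 fun n => dens_gen hA hi n
  filter_upwards [h1] with ω hω
  set c : ℝ := ∏ p ∈ Q, (1 - 1 / (p : ℝ))⁻¹ with hc
  have hc0 : 0 < c := prod_pos' Q hQ
  have h2 : Tendsto (fun n : ℕ => c * (Real.log ((n + 1 : ℕ) : ℝ) / Real.log n)⁻¹) atTop (𝓝 (c * 1⁻¹)) :=
    (log_succ_ratio.inv₀ one_ne_zero).const_mul c
  rw [inv_one, mul_one] at h2
  refine (h2.mono_left (inf_le_left : atTop ⊓ 𝓟 {n : ℕ | ∀ p ∈ Q, ¬ p ∣ n + 1} ≤ atTop)).congr' ?_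
  rw [EventuallyEq, eventually_inf_principal]
  filter_upwards [eventually_ge_atTop 2, (tendsto_add_atTop_nat 1).eventually hp] with n hn hpn hn2
  rw [hω, hpn hn2, ENNReal.toReal_ofReal]
  · rw [inv_div]
    ring
  · exact div_nonneg hc0.le (Real.log_natCast_nonneg _)

/-- the number of `1 ≤ k ≤ x` in `args S f` -/
noncomputable def values (S : Set ℕ) (f : ℤ[X]) (x : ℕ) : ℕ := {k : ℕ | k ≤ x ∧ k ∈ args S f}.ncard

lemma values_close (S : Set ℕ) (f : ℤ[X]) (x : ℕ) :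
    values S f x ≤ polyCount S {f} x + 1 ∧ polyCount S {f} x ≤ values S f x + 1 := by
  have h1 : ({k : ℕ | k ≤ x ∧ k ∈ args S f}).Finite := (Set.finite_Iic x).subset fun k hk => hk.1
  have h2 : ({n : ℕ | n < x ∧ ∀ g ∈ ({f} : Finset ℤ[X]), ∃ a ∈ S, (a : ℤ) = g.eval (n : ℤ)}).Finite :=
    (Set.finite_Iio x).subset fun k hk => hk.1
  constructor
  · have h3 : {k : ℕ | k ≤ x ∧ k ∈ args S f} ⊆
        insert x {n : ℕ | n < x ∧ ∀ g ∈ ({f} : Finset ℤ[X]), ∃ a ∈ S, (a : ℤ) = g.eval (n : ℤ)} := by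
      rintro k ⟨hk, hk1, hk2⟩
      rcases hk.lt_or_eq with h | h
      · right
        exact ⟨h, fun g hg => by rw [Finset.mem_singleton.1 hg]; exact hk2⟩
      · left
        exact h
    exact (Set.ncard_le_ncard h3 (h2.insert x)).trans (Set.ncard_insert_le _ _)
  · have h3 : {n : ℕ | n < x ∧ ∀ g ∈ ({f} : Finset ℤ[X]), ∃ a ∈ S, (a : ℤ) = g.eval (n : ℤ)} ⊆
        insert 0 {k : ℕ | k ≤ x ∧ k ∈ args S f} := by
      rintro k ⟨hk, hk2⟩
      rcases Nat.eq_zero_or_pos k with h | h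
      · left
        exact h
      · right
        exact ⟨hk.le, h, hk2 f (Finset.mem_singleton_self f)⟩
    exact (Set.ncard_le_ncard h3 (h1.insert 0)).trans (Set.ncard_insert_le _ _)

lemma log_div_tendsto : Tendsto (fun x : ℕ => Real.log x / x) atTop (𝓝 0) :=
  (Real.isLittleO_log_id_atTop.tendsto_div_nhds_zero).comp tendsto_natCast_atTop_atTop

lemma values_law {S : Set ℕ} {f : ℤ[X]} {c : ℝ}
    (h : Tendsto (fun x : ℕ => (polyCount S {f} x : ℝ) * Real.log x / x) atTop (𝓝 c)) :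
    Tendsto (fun x : ℕ => (values S f x : ℝ) * Real.log x / x) atTop (𝓝 c) := by
  have h1 : Tendsto (fun x : ℕ => ((values S f x : ℝ) - polyCount S {f} x) * (Real.log x / x)) atTop (𝓝 0) := by
    refine squeeze_zero_norm (fun x => ?_) log_div_tendsto
    have hc := values_close S f x
    have h2 : (values S f x : ℝ) ≤ polyCount S {f} x + 1 := by exact_mod_cast hc.1
    have h3 : (polyCount S {f} x : ℝ) ≤ values S f x + 1 := by exact_mod_cast hc.2
    have h4 : 0 ≤ Real.log (x : ℝ) / x := div_nonneg (Real.log_natCast_nonneg x) (Nat.cast_nonneg x)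
    rw [norm_mul, Real.norm_of_nonneg h4]
    have h5 : ‖(values S f x : ℝ) - polyCount S {f} x‖ ≤ 1 := by
      rw [Real.norm_eq_abs, abs_le]
      constructor <;> linarith
    calc _ ≤ 1 * (Real.log (x : ℝ) / x) := mul_le_mul_of_nonneg_right h5 h4
      _ = _ := one_mul _
  have h2 := h.add h1
  rw [add_zero] at h2
  refine h2.congr fun x => ?_
  ring


lemma ncard_nth {K : Set ℕ} (hK : K.Infinite) (j : ℕ) :
    {k : ℕ | k ≤ Nat.nth (· ∈ K) j ∧ k ∈ K}.ncard = j + 1 := by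
  classical
  have h1 : Nat.count (· ∈ K) (Nat.nth (· ∈ K) j + 1) = j + 1 :=
    Nat.count_nth_succ_of_infinite (p := fun k => k ∈ K) hK j
  rw [← h1, Nat.count_eq_card_filter_range, ← Set.ncard_coe_finset]
  congr 1
  ext k
  simp only [mem_ofPred_eq, Finset.coe_filter, Finset.mem_range, Nat.lt_succ_iff]

lemma det {K : Set ℕ} (hK : K.Infinite) {c : ℝ} (hc : 0 < c)
    (hlaw : Tendsto (fun x : ℕ => ({k : ℕ | k ≤ x ∧ k ∈ K}.ncard : ℝ) * Real.log x / x) atTop (𝓝 c))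
    (hup : ∀ ε : ℝ, 0 < ε → ∀ᶠ j : ℕ in atTop, (Nat.nth (· ∈ K) (j + 1) : ℝ) - Nat.nth (· ∈ K) j ≤
      (c⁻¹ + ε) * Real.log (Nat.nth (· ∈ K) j) ^ 2)
    (hlo : ∀ ε : ℝ, 0 < ε → ∃ᶠ j : ℕ in atTop, (c⁻¹ - ε) * Real.log (Nat.nth (· ∈ K) j) ^ 2 ≤
      (Nat.nth (· ∈ K) (j + 1) : ℝ) - Nat.nth (· ∈ K) j) (ε : ℝ) (h0 : 0 < ε) :
    (∀ᶠ j : ℕ in atTop, (Nat.nth (· ∈ K) (j + 1) : ℝ) < (Nat.nth (· ∈ K) j : ℝ) ^ (1 + (1 + ε) / ((j + 1 : ℕ) : ℝ))) ∧
    (ε < 1 → ∃ᶠ j : ℕ in atTop, (Nat.nth (· ∈ K) j : ℝ) ^ (1 + (1 - ε) / ((j + 1 : ℕ) : ℝ)) < (Nat.nth (· ∈ K) (j + 1) : ℝ)) := by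
  set p : ℕ → ℕ := fun j => Nat.nth (· ∈ K) j with hp
  have hp1 : Tendsto p atTop atTop := (Nat.nth_strictMono hK).tendsto_atTop
  have hpR : Tendsto (fun j => (p j : ℝ)) atTop atTop := tendsto_natCast_atTop_atTop.comp hp1
  have hlog : Tendsto (fun j => Real.log (p j)) atTop atTop := Real.tendsto_log_atTop.comp hpR
  have hT : Tendsto (fun j : ℕ => ((j + 1 : ℕ) : ℝ) * Real.log (p j) / p j) atTop (𝓝 c) := by
    refine (hlaw.comp hp1).congr fun j => ?_
    simp only [Function.comp, hp]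
    rw [ncard_nth hK j]
  have hu : Tendsto (fun j : ℕ => (((j + 1 : ℕ) : ℝ) * Real.log (p j) / p j)⁻¹) atTop (𝓝 c⁻¹) := hT.inv₀ hc.ne'
  have hs : Tendsto (fun j : ℕ => Real.log (p j) / ((j + 1 : ℕ) : ℝ)) atTop (𝓝 0) := by
    have h1 : Tendsto (fun j : ℕ => Real.log (p j) ^ 2 / p j) atTop (𝓝 0) := by
      have h2 := (isLittleO_log_rpow_atTop (r := 1 / 2) (by norm_num)).tendsto_div_nhds_zero
      have h3 := (h2.comp hpR).pow 2
      rw [zero_pow two_ne_zero] at h3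
      refine h3.congr' ?_
      filter_upwards [hpR.eventually_gt_atTop 0] with j hj
      simp only [Function.comp]
      rw [div_pow, ← Real.sqrt_eq_rpow, Real.sq_sqrt hj.le]
    have h2 := h1.mul hu
    rw [zero_mul] at h2
    refine h2.congr' ?_
    filter_upwards [hpR.eventually_gt_atTop 0, hlog.eventually_gt_atTop 0] with j hj hj2
    have : (0 : ℝ) < ((j + 1 : ℕ) : ℝ) := by positivity
    field_simp
  constructor
  · have hlim : c⁻¹ + ε / 2 * c⁻¹ < (1 + ε) * c⁻¹ := by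
      have := mul_pos h0 (inv_pos.2 hc)
      nlinarith
    filter_upwards [hup (ε / 2 * c⁻¹) (mul_pos (half_pos h0) (inv_pos.2 hc)),
      (hu.const_mul (1 + ε)).eventually_const_lt hlim, hpR.eventually_gt_atTop 0, hlog.eventually_gt_atTop 0] with j h1 h2 h3 h4
    have h5 : (0 : ℝ) < ((j + 1 : ℕ) : ℝ) := by positivity
    have h6 : (p (j + 1) : ℝ) - p j < (p j : ℝ) * (Real.log (p j) * ((1 + ε) / ((j + 1 : ℕ) : ℝ))) := by
      calc _ ≤ (c⁻¹ + ε / 2 * c⁻¹) * Real.log (p j) ^ 2 := h1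
        _ < ((1 + ε) * (((j + 1 : ℕ) : ℝ) * Real.log (p j) / p j)⁻¹) * Real.log (p j) ^ 2 :=
          mul_lt_mul_of_pos_right h2 (by positivity)
        _ = _ := by field_simp
    have h7 : (p j : ℝ) ^ (1 + (1 + ε) / ((j + 1 : ℕ) : ℝ)) =
        p j * Real.exp (Real.log (p j) * ((1 + ε) / ((j + 1 : ℕ) : ℝ))) := by
      rw [Real.rpow_add h3, Real.rpow_one, Real.rpow_def_of_pos h3]
    rw [h7]
    have h8 := Real.add_one_le_exp (Real.log (p j) * ((1 + ε) / ((j + 1 : ℕ) : ℝ)))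
    have h9 := mul_le_mul_of_nonneg_left h8 h3.le
    linarith
  · intro h01
    have hlim2 : Tendsto (fun j : ℕ => (c⁻¹ - ε / 2 * c⁻¹) * (1 - (1 - ε) * (Real.log (p j) / ((j + 1 : ℕ) : ℝ))) -
        (1 - ε) * (((j + 1 : ℕ) : ℝ) * Real.log (p j) / p j)⁻¹) atTop
        (𝓝 ((c⁻¹ - ε / 2 * c⁻¹) * (1 - (1 - ε) * 0) - (1 - ε) * c⁻¹)) :=
      (((hs.const_mul (1 - ε)).const_sub 1).const_mul _).sub (hu.const_mul (1 - ε))
    have hpos : 0 < (c⁻¹ - ε / 2 * c⁻¹) * (1 - (1 - ε) * 0) - (1 - ε) * c⁻¹ := by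
      have := mul_pos h0 (inv_pos.2 hc)
      nlinarith
    have hs1 : ∀ᶠ j : ℕ in atTop, Real.log (p j) / ((j + 1 : ℕ) : ℝ) < 1 := hs.eventually_lt_const one_pos
    refine ((hlo (ε / 2 * c⁻¹) (mul_pos (half_pos h0) (inv_pos.2 hc))).and_eventually
      ((hlim2.eventually_const_lt hpos).and (hs1.and ((hpR.eventually_gt_atTop 0).and (hlog.eventually_gt_atTop 0))))).mono ?_
    rintro j ⟨h1, h2, h3, h4, h5⟩
    have h6 : (0 : ℝ) < ((j + 1 : ℕ) : ℝ) := by positivity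
    set s : ℝ := Real.log (p j) * ((1 - ε) / ((j + 1 : ℕ) : ℝ)) with hsdef
    have hs0 : 0 ≤ s := mul_nonneg h5.le (div_nonneg (by linarith) h6.le)
    have hs' : s = (1 - ε) * (Real.log (p j) / ((j + 1 : ℕ) : ℝ)) := by rw [hsdef]; ring
    have hs2 : s < 1 := by
      rw [hs']
      have : 0 < Real.log (p j) / ((j + 1 : ℕ) : ℝ) := div_pos h5 h6
      nlinarith
    have h7 : (p j : ℝ) ^ (1 + (1 - ε) / ((j + 1 : ℕ) : ℝ)) = p j * Real.exp s := by
      rw [Real.rpow_add h4, Real.rpow_one, Real.rpow_def_of_pos h4]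
    have h8 : Real.exp s ≤ 1 / (1 - s) := Real.exp_bound_div_one_sub_of_interval hs0 hs2
    have h9 : (1 - ε) * (((j + 1 : ℕ) : ℝ) * Real.log (p j) / p j)⁻¹ * Real.log (p j) ^ 2 = s * p j := by
      rw [hsdef]; field_simp
    have h10 : s * p j < (c⁻¹ - ε / 2 * c⁻¹) * Real.log (p j) ^ 2 * (1 - s) := by
      have h11 : 0 < Real.log (p j) ^ 2 := by positivity
      have h12 := mul_pos h2 h11
      rw [← hs', sub_mul, h9] at h12
      linarith
    have h13 : (c⁻¹ - ε / 2 * c⁻¹) * Real.log (p j) ^ 2 * (1 - s) ≤ ((p (j + 1) : ℝ) - p j) * (1 - s) :=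
      mul_le_mul_of_nonneg_right h1 (by linarith)
    have h14 : (p j : ℝ) < p (j + 1) * (1 - s) := by nlinarith
    rw [h7]
    calc (p j : ℝ) * Real.exp s ≤ p j * (1 / (1 - s)) := mul_le_mul_of_nonneg_left h8 h4.le
      _ < p (j + 1) := by
        rw [mul_one_div, div_lt_iff₀ (by linarith)]
        exact h14

end Pool.Agent.Results.MP_6e51af_nt.FiroozbakhtInModels

open Pool.Agent.Results.MP_6e51af_nt.FiroozbakhtInModels
open Pool.Agent.R528.RM (totient_prod bh_final)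
open Pool.Agent.N285.GP (CQ CQ_pos bhConst_eq omega_eq poly_gaps)

/-- The independent sieved model is a sieved model for some filtration, and the random sieve of Hawkins is one with
`Q = ∅`.  In every sieved model, almost surely, for EVERY integer polynomial `f` of positive degree with positive
leading coefficient and without a fixed divisor in `Q`: the `q ≥ 1` with `f(q)` chosen form an infinite sequence
`q_1 < q_2 < ...` and, for every `ε > 0`, `q_(n+1) < q_n ^ (1 + (1 + ε) / n)` for all large `n`, and, if `ε < 1`,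
`q_n ^ (1 + (1 - ε) / n) < q_(n+1)` for infinitely many `n`. -/
theorem Pool.Agent.Results.MP_6e51af_nt.FiroozbakhtInModels.result
    {Ω : Type} [m : MeasurableSpace Ω] (μ : Measure Ω) [IsProbabilityMeasure μ] (A : ℕ → Set Ω)
    (Q : Finset ℕ) (hQ : ∀ p ∈ Q, p.Prime) :
    (IndependentModel μ A Q → ∃ ℱ : Filtration ℕ m, SievedModel μ ℱ A Q) ∧
    ∀ ℱ : Filtration ℕ m,
    (HawkinsSieve μ ℱ A → SievedModel μ ℱ A ∅) ∧
    (SievedModel μ ℱ A Q → ∀ᵐ ω ∂μ,
      ∀ f : ℤ[X], 0 < f.natDegree → 0 < f.leadingCoeff → (∀ p ∈ Q, ∃ r : ℤ, ¬ (p : ℤ) ∣ f.eval r) →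
        (args {q | ω ∈ A q} f).Infinite ∧ ∀ ε : ℝ, 0 < ε →
          (∀ᶠ n : ℕ in atTop, (q (args {q | ω ∈ A q} f) (n + 1) : ℝ) <
            (q (args {q | ω ∈ A q} f) n : ℝ) ^ (1 + (1 + ε) / (n : ℝ))) ∧
          (ε < 1 → ∃ᶠ n : ℕ in atTop, (q (args {q | ω ∈ A q} f) n : ℝ) ^ (1 + (1 - ε) / (n : ℝ)) <
            (q (args {q | ω ∈ A q} f) (n + 1) : ℝ))) := by
  classical
  refine ⟨indep_sieved μ A Q hQ, fun ℱ => ⟨?_, ?_⟩⟩
  · rintro ⟨h1, h2, h3⟩
    have hs : Pool.Agent.N740.HK.HS μ ℱ A := ⟨h1, h2, fun n hn => by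
      filter_upwards [h3 n hn] with ω hω
      rw [← prod_inv]
      exact hω⟩
    refine ⟨h1, fun n hn => ?_, ?_⟩
    · obtain ⟨p, hp, _⟩ := hn
      exact absurd hp (Finset.notMem_empty p)
    · filter_upwards [Pool.Agent.N740.HK.hawk_dens hs] with ω hω
      rw [Finset.prod_empty]
      exact hω.mono_left inf_le_left
  · rintro ⟨hA, hcop, hd⟩
    set W := ∏ p ∈ Q, p with hWdef
    have hW : 0 < W := Finset.prod_pos fun q hq => (hQ q hq).pos
    have hc : ∀ n, Nat.Coprime n W ↔ ∀ p ∈ Q, ¬ p ∣ n := by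
      intro n
      rw [hWdef, Nat.coprime_prod_right_iff]
      refine forall₂_congr fun p hp => ?_
      rw [Nat.coprime_comm]
      exact Nat.Prime.coprime_iff_not_dvd (hQ p hp)
    have hgaps := poly_gaps (μ := μ) (ℱ := ℱ) hA W hW (fun n hn => hcop n (by
      rw [hc] at hn
      push Not at hn
      exact hn)) (by
      rw [totient_prod Q hQ]
      simp_rw [hc]
      exact hd)
    filter_upwards [hgaps, bh_final (μ := μ) hA Q hQ hcop hd] with ω g1 g2
    intro f h1 h2 h3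
    have hlaw : Tendsto (fun x : ℕ => (values {q | ω ∈ A q} f x : ℝ) * Real.log x / x) atTop
        (𝓝 (CQ Q f / f.natDegree)) := by
      apply values_law
      have h3 := g2 {f} (fun g hg => by rw [Finset.mem_singleton.1 hg]; exact ⟨h1, h2⟩)
      simp only [Finset.card_singleton, pow_one, Finset.prod_singleton, omega_eq] at h3
      rw [div_eq_mul_inv]
      exact h3
    have h4 := CQ_pos Q hQ f h3
    have hd0 : (0 : ℝ) < f.natDegree := by exact_mod_cast h1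
    have h5 := g1 f h1 h2 (by
      rw [hWdef, bhConst_eq Q hQ]
      exact div_pos h4 hd0)
    rw [hWdef, bhConst_eq Q hQ] at h5
    refine ⟨h5.1, fun ε hε => ?_⟩
    have h6 := det h5.1 (div_pos h4 hd0) hlaw (fun ε hε => (h5.2 ε hε).1) (fun ε hε => (h5.2 ε hε).2) ε hε
    constructor
    · have h7 := h6.1
      rw [eventually_atTop] at h7 ⊢
      obtain ⟨N, hN⟩ := h7
      refine ⟨N + 1, fun n hn => ?_⟩
      obtain ⟨j, rfl⟩ : ∃ j, n = j + 1 := ⟨n - 1, by omega⟩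
      exact hN j (by omega)
    · intro h01
      have h7 := h6.2 h01
      rw [frequently_atTop] at h7 ⊢
      intro N
      obtain ⟨j, hj, hj2⟩ := h7 N
      exact ⟨j + 1, by omega, hj2⟩
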